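import Pool.Agent.K9h56.NI.Step

/-!
Chamberland's map: almost every orbit which stays large comes again and again very close to the
integers.
-/

set_option autoImplicit false

namespace Pool.Agent.K9h56.NI

open Real Set MeasureTheory Filter Topology
open Pool.Agent.H934R2.Ch (f df hasDerivAt_f continuous_f continuous_df)
open Pool.Agent.W40.Ch

/-- the sets of the problem: `K = 10^4`, `L = 10^30` -/
def Z0 : Set ℝ := ZZ (10 ^ 4) (10 ^ 30)

/-- the same for the first `n + 1` terms of the orbit -/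
def Y (n : ℕ) : Set ℝ := Zn (10 ^ 4) (10 ^ 30) n

theorem bb_low {m n : ℕ} (hm : (m : ℝ) + 1 ≤ 10 ^ 30) : bb (Y n) m = 0 := by
  have : Y n ∩ cell m = ∅ := by
    ext x
    simp only [mem_inter_iff, mem_empty_iff_false, iff_false, not_and]
    intro hx hxm
    have h1 : (10 : ℝ) ^ 30 ≤ x := (zn_far hx).1
    linarith [hxm.2]
  unfold bb
  rw [this, measureReal_empty]

theorem contract {n : ℕ} {s : ℝ} (hs : 0 ≤ s) (h : ∀ k, bb (Y n) k ≤ s * √(k : ℝ)) (m : ℕ) :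
    bb (Y (n + 1)) m ≤ 9995 / 10000 * s * √(m : ℝ) := by
  by_cases hm1 : (m : ℝ) + 1 ≤ 10 ^ 30
  · rw [bb_low hm1]; positivity
  push Not at hm1
  have hmN : 10 ^ 30 ≤ m := by
    have : 10 ^ 30 < m + 1 := by exact_mod_cast hm1
    omega
  have hm : (10 : ℝ) ^ 30 ≤ m := by exact_mod_cast hmN
  have hm0 : (0 : ℝ) ≤ m := by positivity
  have h13824 : 13824 ≤ m := le_trans (by norm_num) hmN
  obtain ⟨-, hrr⟩ := ok h13824
  set c : ℝ := (m : ℝ) ^ (1 / 3 : ℝ) with hc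
  have hc3 : c ^ 3 = m := by
    rw [hc, ← Real.rpow_natCast, ← Real.rpow_mul hm0]
    norm_num
  have hc0 : 0 ≤ c := by positivity
  have hc10 : 10 ^ 10 ≤ c := by
    by_contra hcon
    rw [not_le] at hcon
    have : c ^ 3 < (10 ^ 10) ^ 3 := pow_lt_pow_left₀ hcon hc0 (by norm_num)
    rw [hc3] at this
    norm_num at this
    linarith
  have hcq : c * qq m = 1 := by
    rw [hc]
    unfold qq
    rw [← Real.rpow_add (by linarith)]
    norm_num
  have hq0 := qq_nonneg m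
  have hq1 : qq m ≤ 1 / 10 ^ 10 := by
    have : 10 ^ 10 * qq m ≤ c * qq m := mul_le_mul_of_nonneg_right hc10 hq0
    rw [hcq] at this
    rw [le_div_iff₀ (by norm_num)]
    linarith
  set S : ℝ := √(m : ℝ) with hS
  have hS2 : S ^ 2 = m := Real.sq_sqrt hm0
  have hS0 : 0 < S := Real.sqrt_pos.2 (by linarith)
  have hcS : 10 ^ 5 * c ≤ S := by
    by_contra hcon
    rw [not_le] at hcon
    have h1 : S ^ 2 < (10 ^ 5 * c) ^ 2 := pow_lt_pow_left₀ hcon hS0.le (by norm_num)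
    have h2 : (10 ^ 5 * c) ^ 2 ≤ c ^ 3 := by
      calc (10 ^ 5 * c) ^ 2 = 10 ^ 10 * c ^ 2 := by ring
        _ ≤ c * c ^ 2 := mul_le_mul_of_nonneg_right hc10 (sq_nonneg _)
        _ = c ^ 3 := by ring
    rw [hS2] at h1
    rw [hc3] at h2
    linarith
  have hU : ∀ k ≤ 2 * m + 2, bb (Y n) k ≤ 3 / 2 * s * S := by
    intro k hk
    refine (h k).trans ?_
    have h1 : √(k : ℝ) ≤ 3 / 2 * S := by
      apply Real.sqrt_le_iff.2
      constructor
      · positivity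
      · rw [mul_pow, hS2]
        have : (k : ℝ) ≤ 2 * m + 2 := by exact_mod_cast hk
        linarith
    calc s * √(k : ℝ) ≤ s * (3 / 2 * S) := mul_le_mul_of_nonneg_left h1 hs
      _ = 3 / 2 * s * S := by ring
  have hst := step (K := 10 ^ 4) (L := 10 ^ 30) (by positivity) (by norm_num) h13824
    (by linarith) (U := 3 / 2 * s * S) (by positivity) hU
  rw [← hc, ← hS] at hst
  have hP : Q (qq m) (bb (Y n)) m ≤ s * (99 / 100 * S) := by
    have hqpos : 0 < qq m := (ok h13824).1.q0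
    refine (Q_le_P hqpos (fun k => bb_nonneg _ k) m).trans ?_
    refine (P_mono (v := fun k => s * √(k : ℝ)) (fun k _ => h k)).trans ?_
    rw [P_smul]
    exact mul_le_mul_of_nonneg_left (lyap_sqrt (by omega)) hs
  have hQ0 : 0 ≤ s * (99 / 100 * S) := by positivity
  have hrr0 := rr_nonneg m (qq m)
  have h1 : (1 + 3 * rr m (qq m)) * Q (qq m) (bb (Y n)) m ≤
      (1 + 18 / 10 ^ 10) * (s * (99 / 100 * S)) := by
    calc (1 + 3 * rr m (qq m)) * Q (qq m) (bb (Y n)) m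
        ≤ (1 + 3 * rr m (qq m)) * (s * (99 / 100 * S)) :=
          mul_le_mul_of_nonneg_left hP (by linarith)
      _ ≤ (1 + 18 / 10 ^ 10) * (s * (99 / 100 * S)) := by
          apply mul_le_mul_of_nonneg_right _ hQ0
          linarith
  have h2 : 62 * c / S ≤ 62 / 10 ^ 5 := by
    rw [div_le_div_iff₀ hS0 (by norm_num)]
    linarith
  have h3 : 3 / 2 * s * S * (62 * c / S + 56 / 10 ^ 4) ≤
      3 / 2 * s * S * (62 / 10 ^ 5 + 56 / 10 ^ 4) :=
    mul_le_mul_of_nonneg_left (by linarith) (by positivity)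
  have h4 : bb (Y (n + 1)) m ≤ (1 + 18 / 10 ^ 10) * (s * (99 / 100 * S)) +
      3 / 2 * s * S * (62 / 10 ^ 5 + 56 / 10 ^ 4) := hst.trans (add_le_add h1 h3)
  refine h4.trans ?_
  have hsS : 0 ≤ s * S := by positivity
  have e1 : (1 + 18 / 10 ^ 10) * (s * (99 / 100 * S)) +
      3 / 2 * s * S * (62 / 10 ^ 5 + 56 / 10 ^ 4) =
      ((1 + 18 / 10 ^ 10) * (99 / 100) + 3 / 2 * (62 / 10 ^ 5 + 56 / 10 ^ 4)) * (s * S) := by ring
  have e2 : 9995 / 10000 * s * S = 9995 / 10000 * (s * S) := by ring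
  rw [e1, e2]
  apply mul_le_mul_of_nonneg_right _ hsS
  norm_num

theorem bb_pow (n : ℕ) : ∀ k, bb (Y n) k ≤ (9995 / 10000 : ℝ) ^ n * (1 / 10 ^ 15) * √(k : ℝ) := by
  induction n with
  | zero =>
    intro k
    rw [pow_zero, one_mul]
    by_cases hk : (k : ℝ) + 1 ≤ 10 ^ 30
    · rw [bb_low hk]
      positivity
    · push Not at hk
      have hkN : 10 ^ 30 ≤ k := by
        have : 10 ^ 30 < k + 1 := by exact_mod_cast hk
        omega
      have hkR : (10 : ℝ) ^ 30 ≤ k := by exact_mod_cast hkN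
      refine (bb_le_one _ _).trans ?_
      have h1 : (10 : ℝ) ^ 15 ≤ √(k : ℝ) := by
        apply Real.le_sqrt_of_sq_le
        refine le_trans (le_of_eq ?_) hkR
        norm_num
      rw [one_div, ← div_eq_inv_mul, one_le_div (by positivity)]
      exact h1
  | succ n ih =>
    intro k
    have := contract (by positivity) ih k
    refine this.trans (le_of_eq ?_)
    rw [pow_succ]; ring

theorem z0_sub (n : ℕ) : Z0 ⊆ Y n := fun _ hx k _ => hx k

theorem bb_zero (k : ℕ) : bb Z0 k = 0 := by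
  apply le_antisymm _ (bb_nonneg _ _)
  have h1 : Tendsto (fun n : ℕ => (9995 / 10000 : ℝ) ^ n * (1 / 10 ^ 15) * √(k : ℝ)) atTop
      (𝓝 (0 * (1 / 10 ^ 15) * √(k : ℝ))) :=
    ((tendsto_pow_atTop_nhds_zero_of_lt_one (by norm_num) (by norm_num)).mul_const _).mul_const _
  rw [zero_mul, zero_mul] at h1
  refine ge_of_tendsto' h1 fun n => le_trans ?_ (bb_pow n k)
  unfold bb
  exact measureReal_mono (inter_subset_inter_left _ (z0_sub n)) (inter_fin' _ _)

theorem z0_null : volume Z0 = 0 := by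
  have hsub : Z0 ⊆ ⋃ k : ℕ, Z0 ∩ cell k := by
    intro x hx
    have h0 : (0 : ℝ) ≤ x := zz_nonneg (by positivity) hx
    exact mem_iUnion.2 ⟨⌊x⌋₊, hx, mem_cell_floor h0⟩
  apply measure_mono_null hsub
  rw [measure_iUnion_null_iff]
  intro k
  have h1 := bb_zero k
  unfold bb at h1
  rw [Measure.real, ENNReal.toReal_eq_zero_iff] at h1
  rcases h1 with h1 | h1
  · exact h1
  · exact absurd h1 (inter_fin' _ _)

theorem ae_near : ∀ᵐ x : ℝ, (∀ᶠ k in atTop, (10 : ℝ) ^ 30 ≤ f^[k] x) →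
    ∃ᶠ k in atTop, ∃ n : ℕ, |f^[k] x - n| < 10 ^ 4 / f^[k] x := by
  rw [ae_iff]
  have hsub : {x : ℝ | ¬ ((∀ᶠ k in atTop, (10 : ℝ) ^ 30 ≤ f^[k] x) →
      ∃ᶠ k in atTop, ∃ n : ℕ, |f^[k] x - n| < 10 ^ 4 / f^[k] x)} ⊆ ⋃ j : ℕ, f^[j] ⁻¹' Z0 := by
    intro x hx
    simp only [mem_ofPred_eq, Classical.not_imp, not_frequently] at hx
    obtain ⟨h1, h2⟩ := hx
    obtain ⟨j, hj⟩ := eventually_atTop.1 (h1.and h2)
    refine mem_iUnion.2 ⟨j, fun k => ?_⟩
    rw [← Function.iterate_add_apply]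
    obtain ⟨h3, h4⟩ := hj (k + j) (by omega)
    refine ⟨h3, fun n => ?_⟩
    push Not at h4
    have h5 := h4 n
    have h6 : (0 : ℝ) < f^[k + j] x := lt_of_lt_of_le (by positivity) h3
    rw [div_le_iff₀ h6] at h5
    rw [mul_comm]
    exact h5
  apply measure_mono_null hsub
  rw [measure_iUnion_null_iff]
  exact fun j => iter_null z0_null j

theorem quant (m n : ℕ) : volume {x : ℝ | x ∈ Ico (m : ℝ) (m + 1) ∧ ∀ k : ℕ, k ≤ n →
    (10 : ℝ) ^ 30 ≤ f^[k] x ∧ ∀ j : ℕ, 10 ^ 4 / f^[k] x ≤ |f^[k] x - j|} ≤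
    ENNReal.ofReal ((9995 / 10000) ^ n * √((m : ℝ) / 10 ^ 30)) := by
  have hsub : {x : ℝ | x ∈ Ico (m : ℝ) (m + 1) ∧ ∀ k : ℕ, k ≤ n →
      (10 : ℝ) ^ 30 ≤ f^[k] x ∧ ∀ j : ℕ, 10 ^ 4 / f^[k] x ≤ |f^[k] x - j|} ⊆ Y n ∩ cell m := by
    rintro x ⟨hx, h⟩
    refine ⟨fun k hk => ?_, hx⟩
    obtain ⟨h1, h2⟩ := h k hk
    refine ⟨h1, fun j => ?_⟩
    have h3 := h2 j
    have h6 : (0 : ℝ) < f^[k] x := lt_of_lt_of_le (by positivity) h1
    rw [div_le_iff₀ h6] at h3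
    rw [mul_comm]
    exact h3
  refine (measure_mono hsub).trans ?_
  have h1 := bb_pow n m
  unfold bb at h1
  rw [Measure.real] at h1
  rw [← ENNReal.ofReal_toReal (inter_fin' (Y n) m)]
  apply ENNReal.ofReal_le_ofReal
  refine h1.trans (le_of_eq ?_)
  rw [Real.sqrt_div' _ (by positivity)]
  rw [show (10 : ℝ) ^ 30 = (10 ^ 15) ^ 2 by norm_num, Real.sqrt_sq (by positivity)]
  ring

end Pool.Agent.K9h56.NI
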