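import Pool.Agent.W40.Ch.A4

/-!
Chamberland's map: the parts of a cell near the integers.
-/

set_option autoImplicit false

namespace Pool.Agent.K9h56.NI

open Real Set MeasureTheory Filter Topology
open Pool.Agent.H934R2.Ch (f df hasDerivAt_f continuous_f continuous_df)
open Pool.Agent.W40.Ch

/-- the growing Lyapunov function, with a factor -/
theorem lyap_sqrt {m : ℕ} (hm : 400 ≤ m) : P (fun k => √(k : ℝ)) m ≤ 99 / 100 * √(m : ℝ) := by
  have hm' : (400 : ℝ) ≤ m := by exact_mod_cast hm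
  have h1 := P_le_int (m := m) (u := fun k => √(k : ℝ))
    (G := fun x => √((m : ℝ) + 2) * (1 + (-1 / 4) * cos (π * x) +
      (-1 / 40) * cos (π * x) ^ 2)) (by fun_prop) (by
      intro x hx
      have c1 := Real.neg_one_le_cos (π * x)
      have c2 := Real.cos_le_one (π * x)
      have hx0 : (0 : ℝ) < x := lt_of_lt_of_le (by linarith) hx.1
      have hfx : 0 < f x := f_pos hx0
      have hle := f_le_cell hx
      set y := 1 + -(cos (π * x)) / 2 with hy
      have hy0 : 0 < y := by rw [hy]; linarith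
      have h2 := y_b hy0.le (by rw [hy]; linarith)
      have h3 : √((⌊f x⌋₊ : ℕ) : ℝ) ≤ √(f x) := Real.sqrt_le_sqrt (Nat.floor_le hfx.le)
      refine h3.trans ((Real.sqrt_le_sqrt hle).trans ?_)
      rw [Real.sqrt_mul (by linarith)]
      apply mul_le_mul_of_nonneg_left _ (by positivity)
      refine h2.trans (le_of_eq ?_)
      rw [hy]; ring)
  rw [int_cos] at h1
  refine h1.trans ?_
  have h2 : √((m : ℝ) + 2) = √(m : ℝ) * √(1 + 2 / m) := by
    rw [← Real.sqrt_mul (by linarith)]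
    congr 1
    field_simp
  have h3 := y_b (y := 1 + 2 / (m : ℝ)) (by positivity) (by
    have : 2 / (m : ℝ) ≤ 2 / 400 := div_le_div_of_nonneg_left (by norm_num) (by norm_num) hm'
    linarith)
  have h4 : √(1 + 2 / (m : ℝ)) ≤ 1 + 1 / 400 := by
    refine h3.trans ?_
    have : 2 / (m : ℝ) ≤ 2 / 400 := div_le_div_of_nonneg_left (by norm_num) (by norm_num) hm'
    nlinarith [sq_nonneg (1 + 2 / (m : ℝ) - 1)]
  rw [h2]
  have hs : 0 < √(m : ℝ) := Real.sqrt_pos.2 (by linarith)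
  have h5 : √(m : ℝ) * √(1 + 2 / (m : ℝ)) ≤ √(m : ℝ) * (1 + 1 / 400) :=
    mul_le_mul_of_nonneg_left h4 hs.le
  nlinarith

theorem vol_interval {Z : Set ℝ} (hZ : Z ⊆ Ici 0) {a b U : ℝ} (hU : 0 ≤ U) {M : ℕ}
    (hb : b < M + 1) (hab : a ≤ b) (h : ∀ k ≤ M, bb Z k ≤ U) :
    volume.real (Z ∩ Icc a b) ≤ (b - a + 2) * U := by
  rcases lt_or_ge b 0 with hb0 | hb0
  · have : Z ∩ Icc a b = ∅ := by
      ext x
      simp only [mem_inter_iff, mem_Icc, mem_empty_iff_false, iff_false, not_and, not_le]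
      intro hx hxa
      have h1 : (0 : ℝ) ≤ x := hZ hx
      linarith
    rw [this, measureReal_empty]
    exact mul_nonneg (by linarith) hU
  have hsub : Z ∩ Icc a b ⊆ ⋃ k ∈ Finset.Icc ⌊a⌋₊ ⌊b⌋₊, (Z ∩ cell k) := by
    rintro x ⟨hx, hx1, hx2⟩
    have h0 : (0 : ℝ) ≤ x := hZ hx
    simp only [mem_iUnion]
    refine ⟨⌊x⌋₊, Finset.mem_Icc.2 ⟨Nat.floor_le_floor hx1, Nat.floor_le_floor hx2⟩, hx,
      mem_cell_floor h0⟩
  have h1 : volume.real (Z ∩ Icc a b) ≤
      volume.real (⋃ k ∈ Finset.Icc ⌊a⌋₊ ⌊b⌋₊, (Z ∩ cell k)) := by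
    refine measureReal_mono hsub ?_
    refine ((measure_biUnion_finset_le _ _).trans_lt ?_).ne
    exact ENNReal.sum_lt_top.2 fun k _ => (inter_fin' Z k).lt_top
  have h2 := measureReal_biUnion_finset_le (μ := volume) (Finset.Icc ⌊a⌋₊ ⌊b⌋₊)
    (fun k => Z ∩ cell k)
  have hfb : (⌊b⌋₊ : ℝ) ≤ b := Nat.floor_le hb0
  have h3 : ∑ k ∈ Finset.Icc ⌊a⌋₊ ⌊b⌋₊, volume.real (Z ∩ cell k) ≤
      ∑ _k ∈ Finset.Icc ⌊a⌋₊ ⌊b⌋₊, U := by
    apply Finset.sum_le_sum
    intro k hk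
    apply h
    have hk1 := (Finset.mem_Icc.1 hk).2
    have h4 : (⌊b⌋₊ : ℝ) < M + 1 := lt_of_le_of_lt hfb hb
    have h5 : ⌊b⌋₊ < M + 1 := by exact_mod_cast h4
    omega
  rw [Finset.sum_const, Nat.card_Icc, nsmul_eq_mul] at h3
  refine h1.trans (h2.trans (h3.trans (mul_le_mul_of_nonneg_right ?_ hU)))
  have hfa : a - 1 < (⌊a⌋₊ : ℝ) := Nat.sub_one_lt_floor a
  have hle : ⌊a⌋₊ ≤ ⌊b⌋₊ + 1 := (Nat.floor_le_floor hab).trans (Nat.le_succ _)
  rw [Nat.cast_sub hle]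
  push_cast
  linarith

theorem near_est {m : ℕ} {q : ℝ} (hq : 0 < q) (hmq : 1 ≤ m * q) {A : Set ℝ}
    (hA : MeasurableSet A) (hAm : A ⊆ mid m q) {Z : Set ℝ} (hZ : Z ⊆ Ici 0) {c R U : ℝ}
    (hR : 0 ≤ R) (hU : 0 ≤ U) {M : ℕ} (hM : c + R < M + 1) (h : ∀ k ≤ M, bb Z k ≤ U)
    (himg : ∀ x ∈ A, f x ∈ Z ∧ |f x - c| ≤ R) :
    volume.real A ≤ (2 * R + 2) * U / (m * q) := by
  have hsub : A ⊆ Icc (m : ℝ) (m + 1) := by
    intro x hx
    have := hAm hx
    exact ⟨by linarith [this.1], by linarith [this.2]⟩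
  have him : f '' A ⊆ Z ∩ Icc (c - R) (c + R) := by
    rintro _ ⟨x, hx, rfl⟩
    obtain ⟨h1, h2⟩ := himg x hx
    rw [abs_le] at h2
    exact ⟨h1, by linarith [h2.1], by linarith [h2.2]⟩
  have hfin : volume (f '' A) ≠ ⊤ := fin_of_sub (him.trans inter_subset_right)
  have h1 := (vol_image hA ((f_injOn hq.le hmq).mono hAm) hsub hfin (c := m * q)
    (C := 2 * (m + 1) + 3) (by linarith) (fun x hx => ⟨df_mid_abs hq.le hmq (hAm hx).1 (hAm hx).2,
      by
        have h3 := hsub hx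
        have h0 : (0 : ℝ) ≤ x := le_trans (by positivity) h3.1
        have := df_abs_le h0
        linarith [h3.2]⟩)).1
  have h2 : volume.real (f '' A) ≤ volume.real (Z ∩ Icc (c - R) (c + R)) :=
    measureReal_mono him (fin_of_sub inter_subset_right)
  have h3 := vol_interval hZ hU hM (by linarith : c - R ≤ c + R) h
  rw [le_div_iff₀ (by linarith)]
  have e : c + R - (c - R) + 2 = 2 * R + 2 := by ring
  rw [e] at h3
  linarith

/-- values near the integers -/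
theorem f_near (n : ℕ) (t : ℝ) :
    |f (n + t) - f n| ≤ 3 / 2 * |t| + (2 * n + 1) / 4 * (5 * t ^ 2) := by
  have e1 : cos (π * (n + t)) = (-1) ^ n * cos (π * t) := by
    have e : π * (n + t) = π * t + n * π := by ring
    rw [e, Real.cos_add_nat_mul_pi]
  have e2 : cos (π * n) = (-1) ^ n := by
    rw [mul_comm, Real.cos_nat_mul_pi]
  have e3 : f (n + t) - f n = t - t / 2 * cos (π * (n + t)) +
      (2 * n + 1) / 4 * ((-1) ^ n * (1 - cos (π * t))) := by
    unfold f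
    rw [e1, e2]; ring
  have h1 : |cos (π * (n + t))| ≤ 1 := Real.abs_cos_le_one _
  have h2 : |1 - cos (π * t)| ≤ 5 * t ^ 2 := by
    rw [abs_of_nonneg (by linarith [Real.cos_le_one (π * t)])]
    have h3 := Real.one_sub_sq_div_two_le_cos (x := π * t)
    have hp2 : π < 3.15 := Real.pi_lt_d2
    have hp0 := Real.pi_pos
    have h4 : π ^ 2 ≤ 10 := by nlinarith
    have h5 : (π * t) ^ 2 ≤ 10 * t ^ 2 := by
      rw [mul_pow]
      exact mul_le_mul_of_nonneg_right h4 (sq_nonneg _)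
    linarith
  have h3 : |(-1 : ℝ) ^ n * (1 - cos (π * t))| ≤ 5 * t ^ 2 := by
    rw [abs_mul, abs_pow, abs_neg, abs_one, one_pow, one_mul]
    exact h2
  rw [e3]
  refine (abs_add_le _ _).trans ?_
  have h4 : |t - t / 2 * cos (π * (n + t))| ≤ 3 / 2 * |t| := by
    refine (abs_sub _ _).trans ?_
    rw [abs_mul, abs_div, abs_two]
    have h0 : 0 ≤ |t| / 2 := by positivity
    nlinarith
  have h5 : |(2 * (n : ℝ) + 1) / 4 * ((-1) ^ n * (1 - cos (π * t)))| ≤
      (2 * n + 1) / 4 * (5 * t ^ 2) := by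
    rw [abs_mul, abs_of_nonneg (by positivity : (0 : ℝ) ≤ (2 * n + 1) / 4)]
    exact mul_le_mul_of_nonneg_left h3 (by positivity)
  exact add_le_add h4 h5

end Pool.Agent.K9h56.NI
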