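import Pool.Agent.K9h56.NI.Near

/-!
Chamberland's map: inverse images of null sets are null sets.
-/

set_option autoImplicit false

namespace Pool.Agent.K9h56.NI

open Real Set MeasureTheory Filter Topology
open Pool.Agent.H934R2.Ch (f df hasDerivAt_f continuous_f continuous_df)
open Pool.Agent.W40.Ch

theorem zero_null : volume {x : ℝ | df x = 0} = 0 := by
  have han : AnalyticOnNhd ℝ df univ := by
    unfold df
    intro x _
    fun_prop
  have h0 : df 0 ≠ 0 := by
    unfold df
    rw [mul_zero, Real.cos_zero, Real.sin_zero]
    norm_num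
  have h1 := han.preimage_zero_mem_codiscrete h0
  have h2 := ae_restrict_le_codiscreteWithin (μ := volume) MeasurableSet.univ h1
  rw [Measure.restrict_univ, mem_ae_iff, preimage_compl, compl_compl] at h2
  exact h2

theorem pre_null_meas {N : Set ℝ} (hNm : MeasurableSet N) (hN : volume N = 0) :
    volume (f ⁻¹' N) = 0 := by
  have h1 : volume (f ⁻¹' N ∩ {x : ℝ | df x ≠ 0}) = 0 := by
    apply measure_null_of_locally_null
    rintro x ⟨_, hx⟩
    have hx' : df x ≠ 0 := hx
    have hpos : 0 < |df x| := abs_pos.2 hx'
    obtain ⟨ε, hε, hball⟩ := Metric.continuous_iff.1 continuous_df x (|df x| / 2) (by linarith)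
    set I := Icc (x - ε / 2) (x + ε / 2) with hI
    have hnear : ∀ y ∈ I, |df y - df x| < |df x| / 2 := by
      intro y hy
      have : dist y x < ε := by
        rw [Real.dist_eq, abs_lt]
        constructor <;> linarith [hy.1, hy.2]
      have := hball y this
      rwa [Real.dist_eq] at this
    have hinj : InjOn f I := by
      rcases lt_or_gt_of_ne hx' with hneg | hpos'
      · have : StrictAntiOn f I := by
          apply strictAntiOn_of_deriv_neg (convex_Icc _ _) continuous_f.continuousOn
          intro y hy
          rw [(hasDerivAt_f y).deriv]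
          have := abs_lt.1 (hnear y (interior_subset hy))
          rw [abs_of_neg hneg] at this
          linarith [this.2]
        exact this.injOn
      · have : StrictMonoOn f I := by
          apply strictMonoOn_of_deriv_pos (convex_Icc _ _) continuous_f.continuousOn
          intro y hy
          rw [(hasDerivAt_f y).deriv]
          have := abs_lt.1 (hnear y (interior_subset hy))
          rw [abs_of_pos hpos'] at this
          linarith [this.1]
        exact this.injOn
    refine ⟨f ⁻¹' N ∩ I, ?_, ?_⟩
    · rw [mem_nhdsWithin_iff_exists_mem_nhds_inter]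
      refine ⟨I, Icc_mem_nhds (by linarith) (by linarith), ?_⟩
      rintro y ⟨hy1, hy2, _⟩
      exact ⟨hy2, hy1⟩
    · have hA : MeasurableSet (f ⁻¹' N ∩ I) := (pre_meas hNm).inter measurableSet_Icc
      have him : f '' (f ⁻¹' N ∩ I) ⊆ N := by
        rintro _ ⟨y, hy, rfl⟩
        exact hy.1
      have h0 : volume (f '' (f ⁻¹' N ∩ I)) = 0 := measure_mono_null him hN
      have h2 := (vol_image hA (hinj.mono inter_subset_right)
        (inter_subset_right : f ⁻¹' N ∩ I ⊆ Icc (x - ε / 2) (x + ε / 2))
        (by rw [h0]; exact ENNReal.zero_ne_top)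
        (c := |df x| / 2) (C := 2 * |df x|) (by linarith) (fun y hy => by
          have h3 := hnear y hy.2
          have h4 := abs_abs_sub_abs_le_abs_sub (df y) (df x)
          have h5 := abs_lt.1 (h4.trans_lt h3)
          constructor <;> linarith [h5.1, h5.2])).1
      have h6 : volume.real (f '' (f ⁻¹' N ∩ I)) = 0 := by
        rw [Measure.real, h0]; simp
      rw [h6] at h2
      have h7 : volume.real (f ⁻¹' N ∩ I) ≤ 0 := by
        by_contra hcon
        push Not at hcon
        have : 0 < |df x| / 2 * volume.real (f ⁻¹' N ∩ I) := by positivity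
        linarith
      have h8 : volume.real (f ⁻¹' N ∩ I) = 0 := le_antisymm h7 measureReal_nonneg
      rw [Measure.real, ENNReal.toReal_eq_zero_iff] at h8
      rcases h8 with h8 | h8
      · exact h8
      · exact absurd h8 (fin_of_sub inter_subset_right)
  have h2 : f ⁻¹' N ⊆ (f ⁻¹' N ∩ {x : ℝ | df x ≠ 0}) ∪ {x : ℝ | df x = 0} := by
    intro x hx
    by_cases h : df x = 0
    · right; exact h
    · left; exact ⟨hx, h⟩
  exact measure_mono_null h2 (measure_union_null h1 zero_null)

theorem pre_null {N : Set ℝ} (hN : volume N = 0) : volume (f ⁻¹' N) = 0 := by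
  have h1 : volume (toMeasurable volume N) = 0 := by rw [measure_toMeasurable, hN]
  exact measure_mono_null (preimage_mono (subset_toMeasurable volume N))
    (pre_null_meas (measurableSet_toMeasurable _ _) h1)

theorem iter_null {N : Set ℝ} (hN : volume N = 0) (j : ℕ) : volume (f^[j] ⁻¹' N) = 0 := by
  induction j with
  | zero => simpa using hN
  | succ j ih =>
    rw [Function.iterate_succ, preimage_comp]
    exact pre_null ih

end Pool.Agent.K9h56.NI
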