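import Pool.Agent.K9h56.NI.Null

/-!
Chamberland's map: one step estimate for the points whose orbits stay away from the integers.
-/

set_option autoImplicit false

namespace Pool.Agent.K9h56.NI

open Real Set MeasureTheory Filter Topology
open Pool.Agent.H934R2.Ch (f df hasDerivAt_f continuous_f continuous_df)
open Pool.Agent.W40.Ch

/-- large numbers `y` at distance at least `K / y` from the nonnegative integers -/
def Far (K L : ℝ) : Set ℝ := {y : ℝ | L ≤ y ∧ ∀ n : ℕ, K ≤ y * |y - n|}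

/-- points all of whose iterates are far -/
def ZZ (K L : ℝ) : Set ℝ := {x : ℝ | ∀ k : ℕ, f^[k] x ∈ Far K L}

theorem far_closed (K L : ℝ) : IsClosed (Far K L) := by
  have e : Far K L = {y : ℝ | L ≤ y} ∩ ⋂ n : ℕ, {y : ℝ | K ≤ y * |y - n|} := by
    ext y
    simp [Far]
  rw [e]
  apply IsClosed.inter (isClosed_le continuous_const continuous_id)
  apply isClosed_iInter
  intro n
  apply isClosed_le continuous_const
  fun_prop

theorem zz_closed (K L : ℝ) : IsClosed (ZZ K L) := by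
  have e : ZZ K L = ⋂ k : ℕ, (f^[k]) ⁻¹' Far K L := by
    ext x
    simp [ZZ]
  rw [e]
  exact isClosed_iInter fun k => (far_closed K L).preimage (continuous_f.iterate k)

theorem zz_meas (K L : ℝ) : MeasurableSet (ZZ K L) := (zz_closed K L).measurableSet

theorem zz_step {K L x : ℝ} (h : x ∈ ZZ K L) : f x ∈ ZZ K L := by
  intro k
  have := h (k + 1)
  rwa [Function.iterate_succ_apply] at this

theorem zz_far {K L x : ℝ} (h : x ∈ ZZ K L) : x ∈ Far K L := by
  have := h 0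
  simpa using this

theorem zz_nonneg {K L : ℝ} (hL : 0 ≤ L) : ZZ K L ⊆ Ici 0 := fun _ hx => hL.trans (zz_far hx).1

/-- points whose first iterates are far -/
def Zn (K L : ℝ) (n : ℕ) : Set ℝ := {x : ℝ | ∀ k : ℕ, k ≤ n → f^[k] x ∈ Far K L}

theorem zn_meas (K L : ℝ) (n : ℕ) : MeasurableSet (Zn K L n) := by
  have e : Zn K L n = ⋂ k : ℕ, ⋂ (_ : k ≤ n), (f^[k]) ⁻¹' Far K L := by
    ext x
    simp [Zn]
  rw [e]
  exact (isClosed_iInter fun k => isClosed_iInter fun _ =>
    (far_closed K L).preimage (continuous_f.iterate k)).measurableSet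

theorem zn_step {K L : ℝ} {n : ℕ} {x : ℝ} (h : x ∈ Zn K L (n + 1)) : f x ∈ Zn K L n := by
  intro k hk
  have := h (k + 1) (by omega)
  rwa [Function.iterate_succ_apply] at this

theorem zn_far {K L : ℝ} {n : ℕ} {x : ℝ} (h : x ∈ Zn K L n) : x ∈ Far K L := by
  have := h 0 (Nat.zero_le _)
  simpa using this

theorem zn_nonneg {K L : ℝ} {n : ℕ} (hL : 0 ≤ L) : Zn K L n ⊆ Ici 0 :=
  fun _ hx => hL.trans (zn_far hx).1

theorem step {K L : ℝ} (hL : 0 ≤ L) (hK : 2 ≤ K) {m : ℕ} (hm : 13824 ≤ m) (hKm : K ≤ m) {n : ℕ}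
    {U : ℝ} (hU : 0 ≤ U) (h : ∀ k ≤ 2 * m + 2, bb (Zn K L n) k ≤ U) :
    bb (Zn K L (n + 1)) m ≤ (1 + 3 * rr m (qq m)) * Q (qq m) (bb (Zn K L n)) m +
      U * (62 * (m : ℝ) ^ (1 / 3 : ℝ) / √(m : ℝ) + 56 / K) := by
  classical
  obtain ⟨hok, -⟩ := ok hm
  have hm' : (13824 : ℝ) ≤ m := by exact_mod_cast hm
  set Z := Zn K L n with hZ
  set Z' := Zn K L (n + 1) with hZ'
  have hZm : MeasurableSet Z := zn_meas K L n
  have hZm' : MeasurableSet Z' := zn_meas K L (n + 1)
  have hZ0 : Z ⊆ Ici 0 := zn_nonneg hL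
  set q := qq m with hq
  set c : ℝ := (m : ℝ) ^ (1 / 3 : ℝ) with hc
  have hm0 : (0 : ℝ) ≤ m := by positivity
  have hc3 : c ^ 3 = m := by
    rw [hc, ← Real.rpow_natCast, ← Real.rpow_mul hm0]
    norm_num
  have hc0 : 0 ≤ c := by positivity
  have hc24 : 24 ≤ c := by
    by_contra hcon
    rw [not_le] at hcon
    have : c ^ 3 < 24 ^ 3 := pow_lt_pow_left₀ hcon hc0 (by norm_num)
    rw [hc3] at this
    norm_num at this
    linarith
  have hcq : c * q = 1 := by
    rw [hc, hq]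
    unfold qq
    rw [← Real.rpow_add (by linarith)]
    norm_num
  have hq0 : 0 < q := hok.q0
  have hq1 : q ≤ 1 / 24 := by
    have : 24 * q ≤ c * q := mul_le_mul_of_nonneg_right hc24 hq0.le
    linarith
  have hmq2 : (m : ℝ) * q ^ 2 = c := by
    rw [← hc3]
    calc c ^ 3 * q ^ 2 = c * (c * q) ^ 2 := by ring
      _ = c := by rw [hcq]; ring
  set S : ℝ := √(m : ℝ) with hS
  have hS2 : S ^ 2 = m := Real.sq_sqrt hm0
  have hS0 : 0 < S := Real.sqrt_pos.2 (by linarith)
  have hS117 : 117 ≤ S := by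
    by_contra hcon
    push Not at hcon
    have : S ^ 2 < 117 ^ 2 := pow_lt_pow_left₀ hcon hS0.le (by norm_num)
    rw [hS2] at this
    norm_num at this
    linarith
  set θ : ℝ := 1 / S with hθ
  have hθ0 : 0 < θ := by positivity
  have hθS : θ * S = 1 := by rw [hθ]; field_simp
  have hθ1 : θ ≤ 1 / 117 := by
    have : θ * 117 ≤ θ * S := mul_le_mul_of_nonneg_left hS117 hθ0.le
    linarith
  have hmθ : (m : ℝ) * θ = S := by
    rw [← hS2, hθ]; field_simp
  have hmθ2 : (m : ℝ) * θ ^ 2 = 1 := by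
    calc (m : ℝ) * θ ^ 2 = (m * θ) * θ := by ring
      _ = 1 := by rw [hmθ, mul_comm]; exact hθS
  set κ : ℝ := K / (2 * m) with hκ
  have hκ0 : 0 < κ := by positivity
  have hκ1 : κ ≤ 1 / 2 := by
    rw [hκ, div_le_iff₀ (by linarith)]; linarith
  have hmκ : (m : ℝ) * κ = K / 2 := by
    rw [hκ]; field_simp
  -- images
  have hfm : f m ≤ (3 * m + 1) / 2 := f_ub hm0
  have hfm1 : f ((m + 1 : ℕ) : ℝ) ≤ (3 * m + 4) / 2 := by
    have := f_ub (x := ((m + 1 : ℕ) : ℝ)) (by positivity)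
    push_cast at this ⊢
    linarith
  have hRb : 3 + 15 * c ≤ 31 / 2 * c - 1 := by linarith
  have hbig : (3 * m + 4) / 2 + (3 + 15 * c) < ((2 * m + 2 : ℕ) : ℝ) + 1 := by
    push_cast
    have : 30 * c + 4 < m := by
      rw [← hc3]
      nlinarith [mul_nonneg hc0 hc0]
    linarith
  have hdist : ∀ (n : ℕ) (x : ℝ), (2 * (n : ℝ) + 1) ≤ 3 * m → |x - n| ≤ 2 * q →
      |f x - f n| ≤ 3 + 15 * c := by
    intro n x hn hx
    have h1 := f_near n (x - n)
    rw [add_sub_cancel] at h1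
    refine h1.trans ?_
    have h2 : (x - n) ^ 2 ≤ 4 * q ^ 2 := by
      rw [← sq_abs]
      nlinarith [abs_nonneg (x - n)]
    have h3 : (2 * (n : ℝ) + 1) / 4 * (5 * (x - n) ^ 2) ≤ 3 * m / 4 * (5 * (4 * q ^ 2)) := by
      apply mul_le_mul
      · linarith
      · linarith
      · positivity
      · positivity
    have h4 : 3 * (m : ℝ) / 4 * (5 * (4 * q ^ 2)) = 15 * (m * q ^ 2) := by ring
    rw [h4, hmq2] at h3
    linarith
  have hdist2 : ∀ (n : ℕ) (x : ℝ), (2 * (n : ℝ) + 1) ≤ 3 * m → |x - n| ≤ θ →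
      |f x - f n| ≤ 6 := by
    intro n x hn hx
    have h1 := f_near n (x - n)
    rw [add_sub_cancel] at h1
    refine h1.trans ?_
    have h2 : (x - n) ^ 2 ≤ θ ^ 2 := by
      rw [← sq_abs]
      nlinarith [abs_nonneg (x - n)]
    have h3 : (2 * (n : ℝ) + 1) / 4 * (5 * (x - n) ^ 2) ≤ 3 * m / 4 * (5 * θ ^ 2) := by
      apply mul_le_mul
      · linarith
      · linarith
      · positivity
      · positivity
    have h4 : 3 * (m : ℝ) / 4 * (5 * θ ^ 2) = 15 / 4 * (m * θ ^ 2) := by ring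
    rw [h4, hmθ2] at h3
    linarith
  have hn0 : (2 * (m : ℝ) + 1) ≤ 3 * m := by linarith
  have hn1 : (2 * ((m + 1 : ℕ) : ℝ) + 1) ≤ 3 * m := by push_cast; linarith
  -- the four near parts
  set A1 := Z' ∩ Icc ((m : ℝ) + θ) (m + 2 * q) with hA1
  set A2 := Z' ∩ Icc ((m : ℝ) + κ) (m + θ) with hA2
  set A3 := Z' ∩ Icc ((m : ℝ) + 1 - 2 * q) (m + 1 - θ) with hA3
  set A4 := Z' ∩ Icc ((m : ℝ) + 1 - θ) (m + 1 - κ) with hA4
  have v1 : volume.real A1 ≤ (2 * (3 + 15 * c) + 2) * U / (m * θ) := by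
    apply near_est hθ0 (by rw [hmθ]; linarith) (hZm'.inter measurableSet_Icc) _ hZ0
      (c := f m) (M := 2 * m + 2) (by positivity) hU (by linarith) h
    · rintro x ⟨hx, hx1, hx2⟩
      refine ⟨zn_step hx, hdist m x hn0 ?_⟩
      rw [abs_le]
      constructor <;> linarith
    · rintro x ⟨_, hx1, hx2⟩
      exact ⟨hx1, by linarith⟩
  have v2 : volume.real A2 ≤ (2 * 6 + 2) * U / (m * κ) := by
    apply near_est hκ0 (by rw [hmκ]; linarith) (hZm'.inter measurableSet_Icc) _ hZ0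
      (c := f m) (M := 2 * m + 2) (by norm_num) hU (by linarith) h
    · rintro x ⟨hx, hx1, hx2⟩
      refine ⟨zn_step hx, hdist2 m x hn0 ?_⟩
      rw [abs_le]
      constructor <;> linarith
    · rintro x ⟨_, hx1, hx2⟩
      exact ⟨hx1, by linarith⟩
  have v3 : volume.real A3 ≤ (2 * (3 + 15 * c) + 2) * U / (m * θ) := by
    apply near_est hθ0 (by rw [hmθ]; linarith) (hZm'.inter measurableSet_Icc) _ hZ0
      (c := f ((m + 1 : ℕ) : ℝ)) (M := 2 * m + 2) (by positivity) hU (by linarith) h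
    · rintro x ⟨hx, hx1, hx2⟩
      refine ⟨zn_step hx, hdist (m + 1) x hn1 ?_⟩
      rw [abs_le]
      push_cast
      constructor <;> linarith
    · rintro x ⟨_, hx1, hx2⟩
      exact ⟨by linarith, hx2⟩
  have v4 : volume.real A4 ≤ (2 * 6 + 2) * U / (m * κ) := by
    apply near_est hκ0 (by rw [hmκ]; linarith) (hZm'.inter measurableSet_Icc) _ hZ0
      (c := f ((m + 1 : ℕ) : ℝ)) (M := 2 * m + 2) (by norm_num) hU (by linarith) h
    · rintro x ⟨hx, hx1, hx2⟩
      refine ⟨zn_step hx, hdist2 (m + 1) x hn1 ?_⟩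
      rw [abs_le]
      push_cast
      constructor <;> linarith
    · rintro x ⟨_, hx1, hx2⟩
      exact ⟨by linarith, hx2⟩
  -- decomposition
  set Mid : Set ℝ := ⋃ k ∈ Finset.range (2 * m + 3),
      (mid m q ∩ (if cell k ⊆ f '' mid m q then f ⁻¹' cell k ∩ f ⁻¹' Z else ∅)) with hMid
  have hsub : Z' ∩ cell m ⊆ ((A1 ∪ A2) ∪ (A3 ∪ A4)) ∪ Mid := by
    rintro x ⟨hxZ, hx⟩
    have hfar := (zn_far hxZ).2
    have hx0 : (0 : ℝ) ≤ x := hm0.trans hx.1
    have hxle : x ≤ 2 * m := by linarith [hx.2]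
    have hκx : ∀ t : ℝ, 0 ≤ t → K ≤ x * t → κ ≤ t := by
      intro t ht hKt
      rw [hκ, div_le_iff₀ (by linarith)]
      have : x * t ≤ 2 * m * t := mul_le_mul_of_nonneg_right hxle ht
      linarith
    have hl : κ ≤ x - m := by
      apply hκx _ (by linarith [hx.1])
      have := hfar m
      rwa [abs_of_nonneg (by linarith [hx.1])] at this
    have hr : κ ≤ m + 1 - x := by
      apply hκx _ (by linarith [hx.2])
      have := hfar (m + 1)
      rw [abs_sub_comm, abs_of_nonneg (by push_cast; linarith [hx.2])] at this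
      push_cast at this
      exact this
    by_cases h1 : x < m + 2 * q
    · left; left
      by_cases h2 : x < m + θ
      · right; exact ⟨hxZ, by linarith, h2.le⟩
      · left; exact ⟨hxZ, not_lt.1 h2, h1.le⟩
    · by_cases h2 : m + 1 - 2 * q < x
      · left; right
        by_cases h3 : m + 1 - θ < x
        · right; exact ⟨hxZ, h3.le, by linarith⟩
        · left; exact ⟨hxZ, h2.le, not_lt.1 h3⟩
      · right
        rw [not_lt] at h1 h2
        obtain ⟨a, b, c', d⟩ := inner_sub hok h1 h2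
        simp only [hMid, mem_iUnion]
        refine ⟨_, a, c', ?_⟩
        rw [if_pos b]
        exact ⟨d, zn_step hxZ⟩
  have hfA : ∀ a b : ℝ, volume (Z' ∩ Icc a b) ≠ ⊤ := fun a b => fin_of_sub inter_subset_right
  have hfin1 : volume ((A1 ∪ A2) ∪ (A3 ∪ A4)) ≠ ⊤ := by
    have e1 : volume (A1 ∪ A2) < ⊤ :=
      (measure_union_le _ _).trans_lt (ENNReal.add_lt_top.2 ⟨(hfA _ _).lt_top, (hfA _ _).lt_top⟩)
    have e2 : volume (A3 ∪ A4) < ⊤ :=
      (measure_union_le _ _).trans_lt (ENNReal.add_lt_top.2 ⟨(hfA _ _).lt_top, (hfA _ _).lt_top⟩)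
    exact ((measure_union_le _ _).trans_lt (ENNReal.add_lt_top.2 ⟨e1, e2⟩)).ne
  have h1 : bb Z' m ≤ volume.real ((A1 ∪ A2) ∪ (A3 ∪ A4)) + volume.real Mid := by
    unfold bb
    refine (measureReal_mono hsub ?_).trans (measureReal_union_le _ _)
    refine ((measure_union_le _ _).trans_lt (ENNReal.add_lt_top.2 ⟨hfin1.lt_top, ?_⟩)).ne
    exact (biU_fin m q _).lt_top
  have h2 : volume.real ((A1 ∪ A2) ∪ (A3 ∪ A4)) ≤
      (volume.real A1 + volume.real A2) + (volume.real A3 + volume.real A4) :=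
    (measureReal_union_le _ _).trans
      (add_le_add (measureReal_union_le _ _) (measureReal_union_le _ _))
  have h3 := measureReal_biUnion_finset_le (μ := volume) (Finset.range (2 * m + 3))
    (fun k => mid m q ∩ (if cell k ⊆ f '' mid m q then f ⁻¹' cell k ∩ f ⁻¹' Z else ∅))
  have h4 : ∑ k ∈ Finset.range (2 * m + 3),
      volume.real (mid m q ∩ (if cell k ⊆ f '' mid m q then f ⁻¹' cell k ∩ f ⁻¹' Z else ∅)) ≤
      ∑ k ∈ Finset.range (2 * m + 3), (1 + 3 * rr m q) * (wE q m k * bb Z k) := by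
    apply Finset.sum_le_sum
    intro k _
    unfold wE
    split_ifs with hf
    · have h1 := (cell_est hok.q0 hok.mq hok.r hf hZm).2
      rw [← inter_assoc]
      refine h1.trans ?_
      rw [mul_comm (volume.real (mid m q ∩ f ⁻¹' cell k))]
      exact le_rfl
    · simp
  have h5 : volume.real Mid ≤ (1 + 3 * rr m q) * Q q (bb Z) m := by
    unfold Q
    rw [Finset.mul_sum]
    exact h3.trans h4
  rw [hmθ] at v1 v3
  rw [hmκ] at v2 v4
  have h6 : (2 * (3 + 15 * c) + 2) * U / S ≤ 31 * c * U / S := by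
    apply div_le_div_of_nonneg_right _ hS0.le
    apply mul_le_mul_of_nonneg_right _ hU
    linarith
  have h7 : (2 * 6 + 2) * U / (K / 2) = 28 * U / K := by field_simp; ring
  have h8 : U * (62 * c / S + 56 / K) = 2 * (31 * c * U / S) + 2 * (28 * U / K) := by ring
  rw [h8]
  linarith

end Pool.Agent.K9h56.NI
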